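import Mathlib

/-!
Ladders of systems: the core of the uniform bound for test sets of homomorphisms of bounded delay.
-/

set_option autoImplicit false
set_option linter.unusedSectionVars false

namespace Pool.Agent.H17.BD

/-- additive extension of a weight to words -/
def ds {A : Type} (d : A → ℤ) (x : List A) : ℤ := (x.map d).sum

theorem ds_append {A : Type} (d : A → ℤ) (x y : List A) : ds d (x ++ y) = ds d x + ds d y := by
  simp [ds]

theorem ds_nil {A : Type} (d : A → ℤ) : ds d [] = 0 := rfl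

/-- an abstract equality set -/
structure Sys (A : Type) (s : ℕ) where
  E : Set (List A)
  d : A → ℤ
  nil : [] ∈ E
  app : ∀ x ∈ E, ∀ y ∈ E, x ++ y ∈ E
  lc : ∀ x y, x ∈ E → x ++ y ∈ E → y ∈ E
  bal : ∀ x ∈ E, ds d x = 0
  pre : ∀ x y, x ++ y ∈ E → ds d x = 0 → x ∈ E
  p4 : ∀ α β : Fin (s + 1) → A, α 0 ≠ β 0 → ∀ q x y q0 X Y : List A,
    q ++ (List.ofFn α ++ x) ∈ E → q ++ (List.ofFn β ++ y) ∈ E →
    q0 ++ (List.ofFn α ++ X) ∈ E → q0 ++ (List.ofFn β ++ Y) ∈ E → ds d q = ds d q0
  p5 : ∀ α β : Fin (s + 1) → A, α 0 ≠ β 0 → ∀ q y q0 X Y : List A,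
    q0 ++ (List.ofFn α ++ X) ∈ E → q0 ++ (List.ofFn β ++ Y) ∈ E →
    q ++ (List.ofFn β ++ y) ∈ E → ds d q = ds d q0 → q ++ (List.ofFn α ++ X) ∈ E

/-- the Parikh vector -/
noncomputable def pk {A : Type} [DecidableEq A] (x : List A) : A → ℚ :=
  (x.map (fun a => (Pi.single a 1 : A → ℚ))).sum

/-- the linear functional of a weight -/
noncomputable def fl {A : Type} [Fintype A] (d : A → ℤ) : (A → ℚ) →ₗ[ℚ] ℚ :=
  ∑ a, (d a : ℚ) • LinearMap.proj a

theorem fl_pk {A : Type} [Fintype A] [DecidableEq A] (d : A → ℤ) (x : List A) :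
    fl d (pk x) = (ds d x : ℚ) := by
  induction x with
  | nil => simp [pk, ds]
  | cons a x ih =>
    have h1 : pk (a :: x) = (Pi.single a 1 : A → ℚ) + pk x := by simp [pk]
    have h2 : ds d (a :: x) = d a + ds d x := by simp [ds]
    rw [h1, h2, map_add, ih]
    simp [fl, LinearMap.sum_apply, Pi.single_apply]

theorem card_le_of_measure (J : Finset ℕ) (μ : ℕ → ℕ) (N : ℕ) (hmono : Monotone μ)
    (hN : ∀ i, μ i ≤ N) (hs : ∀ i ∈ J, μ i < μ (i + 1)) : J.card ≤ N := by
  have h1 : J.card ≤ (Finset.range N).card := by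
    apply Finset.card_le_card_of_injOn μ
    · intro i hi
      have h2 := hs i hi
      have h3 := hN (i + 1)
      simp only [Finset.coe_range, Set.mem_Iio]
      omega
    · intro i hi j hj hij
      rcases lt_trichotomy i j with h | h | h
      · have h2 := hs i hi
        have h3 := hmono (show i + 1 ≤ j from h)
        omega
      · exact h
      · have h2 := hs j hj
        have h3 := hmono (show j + 1 ≤ i from h)
        omega
  simpa using h1

theorem length_pow {A : Type} (x : List A) (hx : x ≠ []) (m : ℕ) :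
    m ≤ ((List.replicate m x).flatten).length := by
  have h : 1 ≤ x.length := List.length_pos_iff.mpr hx
  rw [List.length_flatten, List.map_replicate, List.sum_replicate, smul_eq_mul]
  nlinarith

theorem ofFn_of_length {A : Type} : ∀ (l : List A) (m : ℕ), l.length = m →
    ∃ α : Fin m → A, List.ofFn α = l := by
  rintro l m rfl
  exact ⟨l.get, List.ofFn_get l⟩

theorem exists_ofFn {A : Type} {s : ℕ} (e : A) (l : List A) (h : s ≤ l.length) :
    ∃ (α : Fin (s + 1) → A) (x : List A), α 0 = e ∧ e :: l = List.ofFn α ++ x := by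
  have hl : ((e :: l).take (s + 1)).length = s + 1 := by
    rw [List.length_take, List.length_cons]
    omega
  obtain ⟨α, hα⟩ := ofFn_of_length ((e :: l).take (s + 1)) (s + 1) hl
  refine ⟨α, (e :: l).drop (s + 1), ?_, ?_⟩
  · rw [List.ofFn_succ, List.take_succ_cons] at hα
    exact (List.cons.inj hα).1
  · rw [hα, List.take_append_drop]

section ladder

variable {A : Type} [Fintype A] [DecidableEq A] {s : ℕ} (J : Finset ℕ) (w : ℕ → Sys A s)

/-- intersection of the equality sets from `i` on -/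
def MM (i : ℕ) : Set (List A) := {x | ∀ j ∈ J, i ≤ j → x ∈ (w j).E}

/-- common orthogonal space -/
noncomputable def WW (i : ℕ) : Submodule ℚ (A → ℚ) where
  carrier := {v | ∀ j ∈ J, i ≤ j → fl (w j).d v = 0}
  add_mem' := by
    intro a b ha hb j hj hij
    rw [map_add, ha j hj hij, hb j hj hij, add_zero]
  zero_mem' := by
    intro j _ _
    rw [map_zero]
  smul_mem' := by
    intro c x hx j hj hij
    rw [map_smul, hx j hj hij, smul_zero]

/-- branching types -/
def TT (i : ℕ) : Set ((Fin (s + 1) → A) × (Fin (s + 1) → A)) :=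
  {t | t.1 0 ≠ t.2 0 ∧ ∃ q x y : List A, q ++ (List.ofFn t.1 ++ x) ∈ MM J w i ∧
    q ++ (List.ofFn t.2 ++ y) ∈ MM J w i}

/-- first letters -/
def SS (i : ℕ) : Set A := {c | ∃ x, c :: x ∈ MM J w i}

theorem MM_mono {i k : ℕ} (h : i ≤ k) : MM J w i ⊆ MM J w k :=
  fun _ hx j hj hkj => hx j hj (h.trans hkj)

theorem WW_mono {i k : ℕ} (h : i ≤ k) : WW J w i ≤ WW J w k :=
  fun _ hx j hj hkj => hx j hj (h.trans hkj)

theorem TT_mono {i k : ℕ} (h : i ≤ k) : TT J w i ⊆ TT J w k := by
  rintro t ⟨h0, q, x, y, hx, hy⟩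
  exact ⟨h0, q, x, y, MM_mono J w h hx, MM_mono J w h hy⟩

theorem SS_mono {i k : ℕ} (h : i ≤ k) : SS J w i ⊆ SS J w k := by
  rintro c ⟨x, hx⟩
  exact ⟨x, MM_mono J w h hx⟩

theorem MM_app {i : ℕ} {x y : List A} (hx : x ∈ MM J w i) (hy : y ∈ MM J w i) :
    x ++ y ∈ MM J w i :=
  fun j hj hij => (w j).app x (hx j hj hij) y (hy j hj hij)

theorem MM_nil (i : ℕ) : ([] : List A) ∈ MM J w i := fun j _ _ => (w j).nil

theorem MM_pow {i : ℕ} {x : List A} (hx : x ∈ MM J w i) (m : ℕ) :
    (List.replicate m x).flatten ∈ MM J w i := by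
  induction m with
  | zero => simpa using MM_nil J w i
  | succ m ih =>
    rw [List.replicate_succ, List.flatten_cons]
    exact MM_app J w hx ih

theorem bal_of {i : ℕ} (hW : WW J w i = WW J w (i + 1)) {q q0 : List A}
    (h : ∀ j ∈ J, i + 1 ≤ j → ds (w j).d q = ds (w j).d q0) :
    ∀ j ∈ J, i ≤ j → ds (w j).d q = ds (w j).d q0 := by
  have h1 : pk q - pk q0 ∈ WW J w (i + 1) := by
    intro j hj hij
    rw [map_sub, fl_pk, fl_pk, h j hj hij, sub_self]
  rw [← hW] at h1
  intro j hj hij
  have h2 := h1 j hj hij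
  rw [map_sub, fl_pk, fl_pk, sub_eq_zero] at h2
  exact_mod_cast h2

theorem exch {i : ℕ} (hW : WW J w i = WW J w (i + 1)) (hT : TT J w i = TT J w (i + 1))
    (q x' y' : List A) (e e' : A) (hee : e ≠ e') (hx : q ++ e :: x' ∈ MM J w (i + 1))
    (hy : q ++ e' :: y' ∈ MM J w i) : ∃ y'' : List A, q ++ e :: y'' ∈ MM J w i := by
  obtain ⟨α, x1, hα0, hα⟩ := exists_ofFn (s := s) e
    (x' ++ (List.replicate s (q ++ e :: x')).flatten) (by
      rw [List.length_append]
      have := length_pow (q ++ e :: x') (by simp) s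
      omega)
  obtain ⟨β, y1, hβ0, hβ⟩ := exists_ofFn (s := s) e'
    (y' ++ (List.replicate s (q ++ e' :: y')).flatten) (by
      rw [List.length_append]
      have := length_pow (q ++ e' :: y') (by simp) s
      omega)
  have hX : q ++ (List.ofFn α ++ x1) ∈ MM J w (i + 1) := by
    rw [← hα]
    have := MM_app J w hx (MM_pow J w hx s)
    simpa using this
  have hY : q ++ (List.ofFn β ++ y1) ∈ MM J w i := by
    rw [← hβ]
    have := MM_app J w hy (MM_pow J w hy s)
    simpa using this
  have hαβ : α 0 ≠ β 0 := by rw [hα0, hβ0]; exact hee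
  have ht : (α, β) ∈ TT J w (i + 1) :=
    ⟨hαβ, q, x1, y1, hX, MM_mono J w (Nat.le_succ i) hY⟩
  rw [← hT] at ht
  obtain ⟨-, q0, X, Y, hX0, hY0⟩ := ht
  have hd : ∀ j ∈ J, i ≤ j → ds (w j).d q = ds (w j).d q0 := by
    apply bal_of J w hW
    intro j hj hij
    exact (w j).p4 α β hαβ q x1 y1 q0 X Y (hX j hj hij) (hY j hj (by omega))
      (hX0 j hj (by omega)) (hY0 j hj (by omega))
  have hnew : q ++ (List.ofFn α ++ X) ∈ MM J w i := by
    intro j hj hij
    exact (w j).p5 α β hαβ q y1 q0 X Y (hX0 j hj hij) (hY0 j hj hij) (hY j hj hij)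
      (hd j hj hij)
  rw [List.ofFn_succ, hα0] at hnew
  exact ⟨_, by simpa using hnew⟩

theorem ext_cmp {i : ℕ} (hW : WW J w i = WW J w (i + 1)) (hT : TT J w i = TT J w (i + 1)) :
    ∀ (x' q : List A), q ≠ [] → q ++ x' ∈ MM J w (i + 1) → (∃ y', q ++ y' ∈ MM J w i) →
    ∃ y ∈ MM J w i, y ≠ [] ∧ ((q ++ x') <+: y ∨ y <+: (q ++ x')) := by
  intro x'
  induction x' with
  | nil =>
    intro q hq _ ⟨y', hy'⟩
    exact ⟨q ++ y', hy', by simp [hq], Or.inl (by simp)⟩
  | cons e x' ih =>
    intro q hq hx ⟨y', hy'⟩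
    have hstep : ∀ y'', q ++ e :: y'' ∈ MM J w i →
        ∃ y ∈ MM J w i, y ≠ [] ∧ ((q ++ e :: x') <+: y ∨ y <+: (q ++ e :: x')) := by
      intro y'' hy''
      have := ih (q ++ [e]) (by simp) (by simpa using hx) ⟨y'', by simpa using hy''⟩
      simpa using this
    cases y' with
    | nil => exact ⟨q, by simpa using hy', hq, Or.inr (by simp)⟩
    | cons e' y' =>
      by_cases hee : e = e'
      · subst hee
        exact hstep y' hy'
      · obtain ⟨y'', hy''⟩ := exch J w hW hT q x' y' e e' hee hx hy'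
        exact hstep y'' hy''

theorem core {i : ℕ} (hW : WW J w i = WW J w (i + 1)) (hT : TT J w i = TT J w (i + 1))
    (hS : SS J w i = SS J w (i + 1)) : MM J w (i + 1) ⊆ MM J w i := by
  suffices h : ∀ (n : ℕ) (x : List A), x.length ≤ n → x ∈ MM J w (i + 1) → x ∈ MM J w i from
    fun x hx => h x.length x le_rfl hx
  intro n
  induction n with
  | zero =>
    intro x hx _
    have : x = [] := List.length_eq_zero_iff.mp (by omega)
    rw [this]
    exact MM_nil J w i
  | succ n ih =>
    intro x hxn hx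
    cases x with
    | nil => exact MM_nil J w i
    | cons c x' =>
      have hc : c ∈ SS J w (i + 1) := ⟨x', hx⟩
      rw [← hS] at hc
      obtain ⟨y0, hy0⟩ := hc
      obtain ⟨y, hy, hyn, hcmp⟩ := ext_cmp J w hW hT x' [c] (by simp) hx ⟨y0, hy0⟩
      rcases hcmp with ⟨z, hz⟩ | ⟨z, hz⟩
      · have hb : ∀ j ∈ J, i ≤ j → ds (w j).d (c :: x') = ds (w j).d [] := by
          apply bal_of J w hW
          intro j hj hij
          rw [(w j).bal _ (hx j hj hij), ds_nil]
        intro j hj hij
        refine (w j).pre (c :: x') z ?_ (by rw [hb j hj hij, ds_nil])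
        have : (c :: x') ++ z = y := by simpa using hz
        rw [this]
        exact hy j hj hij
      · have hzz : y ++ z = c :: x' := by simpa using hz
        have hz1 : z ∈ MM J w (i + 1) := by
          intro j hj hij
          refine (w j).lc y z (hy j hj (by omega)) ?_
          rw [hzz]
          exact hx j hj hij
        have hlen : z.length ≤ n := by
          have h1 : (y ++ z).length = (c :: x').length := by rw [hzz]
          rw [List.length_append] at h1
          have h2 : 1 ≤ y.length := List.length_pos_iff.mpr hyn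
          omega
        have := MM_app J w hy (ih z hlen hz1)
        rwa [hzz] at this

/-- Ladders of systems are bounded. -/
theorem ladder_bound (x : ℕ → List A) (hlad : ∀ i ∈ J, ∀ j ∈ J, i < j → x i ∈ (w j).E)
    (hnot : ∀ j ∈ J, x j ∉ (w j).E) :
    J.card ≤ Fintype.card A + (Fintype.card A ^ (s + 1) * Fintype.card A ^ (s + 1)) +
      Fintype.card A := by
  classical
  refine card_le_of_measure J
    (fun i => Module.finrank ℚ (WW J w i) + (TT J w i).ncard + (SS J w i).ncard) _ ?_ ?_ ?_
  · intro i k hik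
    have h1 := Submodule.finrank_mono (WW_mono J w hik)
    have h2 := Set.ncard_le_ncard (TT_mono J w hik) (Set.toFinite _)
    have h3 := Set.ncard_le_ncard (SS_mono J w hik) (Set.toFinite _)
    show Module.finrank ℚ (WW J w i) + (TT J w i).ncard + (SS J w i).ncard ≤
      Module.finrank ℚ (WW J w k) + (TT J w k).ncard + (SS J w k).ncard
    omega
  · intro i
    have h1 : Module.finrank ℚ (WW J w i) ≤ Fintype.card A := by
      have := Submodule.finrank_le (WW J w i)
      rwa [Module.finrank_fintype_fun_eq_card] at this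
    have h2 : (TT J w i).ncard ≤ Fintype.card A ^ (s + 1) * Fintype.card A ^ (s + 1) := by
      have := Set.ncard_le_ncard (Set.subset_univ (TT J w i)) (Set.toFinite _)
      rw [Set.ncard_univ, Nat.card_eq_fintype_card, Fintype.card_prod, Fintype.card_fun,
        Fintype.card_fin] at this
      exact this
    have h3 : (SS J w i).ncard ≤ Fintype.card A := by
      have := Set.ncard_le_ncard (Set.subset_univ (SS J w i)) (Set.toFinite _)
      rwa [Set.ncard_univ, Nat.card_eq_fintype_card] at this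
    show Module.finrank ℚ (WW J w i) + (TT J w i).ncard + (SS J w i).ncard ≤ _
    omega
  · intro i hi
    have h1 := Submodule.finrank_mono (WW_mono J w (Nat.le_succ i))
    have h2 := Set.ncard_le_ncard (TT_mono J w (Nat.le_succ i)) (Set.toFinite _)
    have h3 := Set.ncard_le_ncard (SS_mono J w (Nat.le_succ i)) (Set.toFinite _)
    show Module.finrank ℚ (WW J w i) + (TT J w i).ncard + (SS J w i).ncard <
      Module.finrank ℚ (WW J w (i + 1)) + (TT J w (i + 1)).ncard + (SS J w (i + 1)).ncard
    by_contra hcon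
    simp only [Nat.succ_eq_add_one] at h1 h2 h3
    have e1 : WW J w i = WW J w (i + 1) :=
      Submodule.eq_of_le_of_finrank_le (WW_mono J w (Nat.le_succ i)) (by omega)
    have e2 : TT J w i = TT J w (i + 1) :=
      Set.eq_of_subset_of_ncard_le (TT_mono J w (Nat.le_succ i)) (by omega) (Set.toFinite _)
    have e3 : SS J w i = SS J w (i + 1) :=
      Set.eq_of_subset_of_ncard_le (SS_mono J w (Nat.le_succ i)) (by omega) (Set.toFinite _)
    have hx : x i ∈ MM J w (i + 1) := fun j hj hij => hlad i hi j hj (by omega)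
    exact hnot i hi (core J w e1 e2 e3 hx i hi le_rfl)

end ladder

end Pool.Agent.H17.BD
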