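import Pool.Agent.H17.BD.Rest

/-!
Test sets for pairs of homomorphisms of bounded delay, in terms of lists.
-/

set_option autoImplicit false
set_option linter.unusedSectionVars false

namespace Pool.Agent.H17.BD

/-- a relation with bounded ladders has bounded test sets -/
theorem exists_test {X W : Type*} (R : X → W → Prop) (N : ℕ)
    (hN : ∀ (J : Finset ℕ) (x : ℕ → X) (w : ℕ → W), (∀ i ∈ J, ∀ j ∈ J, i < j → R (x i) (w j)) →
      (∀ j ∈ J, ¬ R (x j) (w j)) → J.card ≤ N) (L : Set X) :
    ∃ F : Finset X, (F : Set X) ⊆ L ∧ F.card ≤ N ∧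
      ∀ w, (∀ x ∈ F, R x w) → ∀ x ∈ L, R x w := by
  classical
  by_contra hcon
  push Not at hcon
  have hstep : ∀ t : ℕ, t ≤ N + 1 → t = 0 ∨ ∃ (x : ℕ → X) (w : ℕ → W),
      (∀ j ∈ Finset.range t, x j ∈ L) ∧
      (∀ i ∈ Finset.range t, ∀ j ∈ Finset.range t, i < j → R (x i) (w j)) ∧
      (∀ j ∈ Finset.range t, ¬ R (x j) (w j)) := by
    intro t
    induction t with
    | zero => intro _; exact Or.inl rfl
    | succ t ih =>
      intro ht
      right
      rcases ih (by omega) with rfl | ⟨x, w, hx, hl⟩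
      · obtain ⟨w0, -, x0, hx0, hR⟩ := hcon ∅ (by simp) (by simp)
        refine ⟨fun _ => x0, fun _ => w0, fun _ _ => hx0, ?_, ?_⟩
        · intro i hi j hj hij
          simp at hi hj; omega
        · intro j _; exact hR
      · obtain ⟨w0, hw0, x0, hx0, hR⟩ := hcon ((Finset.range t).image x)
          (by
            intro z hz
            obtain ⟨j, hj, rfl⟩ := Finset.mem_image.mp (Finset.mem_coe.mp hz)
            exact hx j hj)
          (Finset.card_image_le.trans (by simp; omega))
        refine ⟨Function.update x t x0, Function.update w t w0, ?_, ?_, ?_⟩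
        · intro j hj
          by_cases hjt : j = t
          · subst hjt; simpa using hx0
          · rw [Function.update_of_ne hjt]
            exact hx j (Finset.mem_range.mpr (by have := Finset.mem_range.mp hj; omega))
        · intro i hi j hj hij
          have hi' := Finset.mem_range.mp hi
          have hj' := Finset.mem_range.mp hj
          rw [Function.update_of_ne (show i ≠ t by omega)]
          by_cases hjt : j = t
          · subst hjt
            rw [Function.update_self]
            exact hw0 _ (Finset.mem_image_of_mem _ (Finset.mem_range.mpr hij))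
          · rw [Function.update_of_ne hjt]
            exact hl.1 i (Finset.mem_range.mpr (by omega)) j (Finset.mem_range.mpr (by omega)) hij
        · intro j hj
          have hj' := Finset.mem_range.mp hj
          by_cases hjt : j = t
          · subst hjt
            rw [Function.update_self, Function.update_self]
            exact hR
          · rw [Function.update_of_ne hjt, Function.update_of_ne hjt]
            exact hl.2 j (Finset.mem_range.mpr (by omega))
  rcases hstep (N + 1) le_rfl with h | ⟨x, w, hx, hl1, hl2⟩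
  · omega
  · have := hN _ x w hl1 hl2
    simp at this

variable {A : Type}

/-- types of pairs -/
def Good (s : ℕ) {B : Type} (w1 w2 : A → List B) : Prop :=
  (Sep s w1 ∧ Sep s w2) ∨ (Sep s (mir w1) ∧ Sep s (mir w2)) ∨ (Inj w1 ∧ Per w2) ∨
    (Per w1 ∧ Inj w2) ∨ (Per w1 ∧ Per w2)

theorem final_list [Fintype A] (s : ℕ) (L : Set (List A)) :
    ∃ F : Finset (List A), (F : Set (List A)) ⊆ L ∧
      F.card ≤ 2 * (2 * Fintype.card A + Fintype.card A ^ (2 * s + 2)) + Fintype.card A ∧
      ∀ (B : Type) (w1 w2 : A → List B), Good s w1 w2 → (∀ f ∈ F, f ∈ Eq w1 w2) →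
        ∀ x ∈ L, x ∈ Eq w1 w2 := by
  classical
  obtain ⟨N, hNdef⟩ : ∃ N : ℕ, N = 2 * Fintype.card A + Fintype.card A ^ (2 * s + 2) := ⟨_, rfl⟩
  have hN : Fintype.card A + (Fintype.card A ^ (s + 1) * Fintype.card A ^ (s + 1)) +
      Fintype.card A = N := by
    rw [hNdef, ← pow_add, show s + 1 + (s + 1) = 2 * s + 2 by ring]
    ring
  have hlad : ∀ (J : Finset ℕ) (x : ℕ → List A) (w : ℕ → Sys A s),
      (∀ i ∈ J, ∀ j ∈ J, i < j → x i ∈ (w j).E) → (∀ j ∈ J, ¬ x j ∈ (w j).E) → J.card ≤ N := by
    intro J x w h1 h2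
    rw [← hN]
    exact ladder_bound J w x h1 h2
  obtain ⟨F1, h1L, h1c, h1⟩ := exists_test (fun (x : List A) (S : Sys A s) => x ∈ S.E) N
    hlad L
  obtain ⟨F2, h2L, h2c, h2⟩ := exists_test (fun (x : List A) (S : Sys A s) => x.reverse ∈ S.E) N
    (fun J x w h1 h2 => hlad J (fun j => (x j).reverse) w h1 h2) L
  obtain ⟨F3, h3L, h3c, h3⟩ := exists_test
    (fun (x : List A) (E : {E : Set (List A) // Lin E}) => x ∈ E.1) (Fintype.card A)
    (fun J x w h1 h2 => lin_ladder J x (fun j => (w j).1) (fun j _ => (w j).2) h1 h2) L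
  refine ⟨F1 ∪ F2 ∪ F3, ?_, ?_, ?_⟩
  · rw [Finset.coe_union, Finset.coe_union]
    exact Set.union_subset (Set.union_subset h1L h2L) h3L
  · have e1 := Finset.card_union_le (F1 ∪ F2) F3
    have e2 := Finset.card_union_le F1 F2
    rw [← hNdef]
    omega
  · intro B w1 w2 hg hF x hx
    rcases hg with ⟨a, b⟩ | ⟨a, b⟩ | ⟨a, b⟩ | ⟨a, b⟩ | ⟨a, b⟩
    · obtain ⟨S, hS⟩ := sys_of_sep a b
      rw [← hS]
      refine h1 S (fun f hf => ?_) x hx
      rw [hS]
      exact hF f (by simp [hf])
    · obtain ⟨S, hS⟩ := sys_of_sep a b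
      rw [← mem_Eq_mir, ← hS]
      refine h2 S (fun f hf => ?_) x hx
      rw [hS, mem_Eq_mir]
      exact hF f (by simp [hf])
    · obtain ⟨S, hS⟩ := sys_of_inj_per (s := s) a b
      rw [← hS]
      refine h1 S (fun f hf => ?_) x hx
      rw [hS]
      exact hF f (by simp [hf])
    · obtain ⟨S, hS⟩ := sys_of_inj_per (s := s) b a
      rw [Eq_symm, ← hS]
      refine h1 S (fun f hf => ?_) x hx
      rw [hS, Eq_symm]
      exact hF f (by simp [hf])
    · refine h3 ⟨Eq w1 w2, lin_of_per a b⟩ (fun f hf => ?_) x hx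
      exact hF f (by simp [hf])

end Pool.Agent.H17.BD
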