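import Pool.Agent.H17.BD.Core

/-!
Pairs of homomorphisms which separate with look-ahead `s` give systems.
-/

set_option autoImplicit false
set_option linter.unusedSectionVars false

namespace Pool.Agent.H17.BD

variable {A B : Type}

/-- `w` separates (from the left) with look-ahead `s` -/
def Sep (s : ℕ) (w : A → List B) : Prop :=
  ∀ α β : Fin (s + 1) → A, α 0 ≠ β 0 → ∃ l N : ℕ, ∀ x y : List A, N ≤ x.length → N ≤ y.length →
    ∃ (z : List B) (b c : B) (u v : List B), z.length = l ∧ b ≠ c ∧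
      (List.ofFn α ++ x).flatMap w = z ++ b :: u ∧ (List.ofFn β ++ y).flatMap w = z ++ c :: v

theorem fm (w : A → List B) (q y : List A) : (q ++ y).flatMap w = q.flatMap w ++ y.flatMap w :=
  List.flatMap_append

/-- equality set -/
def Eq (w1 w2 : A → List B) : Set (List A) := {x | x.flatMap w1 = x.flatMap w2}

/-- weight -/
def wt (w1 w2 : A → List B) (a : A) : ℤ := ((w1 a).length : ℤ) - ((w2 a).length : ℤ)

theorem ds_wt (w1 w2 : A → List B) (x : List A) :
    ds (wt w1 w2) x = ((x.flatMap w1).length : ℤ) - ((x.flatMap w2).length : ℤ) := by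
  induction x with
  | nil => simp [ds]
  | cons a x ih =>
    have h : ds (wt w1 w2) (a :: x) = wt w1 w2 a + ds (wt w1 w2) x := by simp [ds]
    rw [h, ih, List.flatMap_cons, List.flatMap_cons, List.length_append, List.length_append, wt]
    push_cast
    ring

theorem Eq_app {w1 w2 : A → List B} {x y : List A} (hx : x ∈ Eq w1 w2) (hy : y ∈ Eq w1 w2) :
    x ++ y ∈ Eq w1 w2 := by
  unfold Eq at *
  simp only [Set.mem_ofPred_eq] at *
  rw [List.flatMap_append, List.flatMap_append, hx, hy]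

theorem Eq_lc {w1 w2 : A → List B} {x y : List A} (hx : x ∈ Eq w1 w2) (hxy : x ++ y ∈ Eq w1 w2) :
    y ∈ Eq w1 w2 := by
  unfold Eq at *
  simp only [Set.mem_ofPred_eq] at *
  rw [List.flatMap_append, List.flatMap_append, hx] at hxy
  exact List.append_cancel_left hxy

theorem Eq_rc {w1 w2 : A → List B} {x y : List A} (hy : y ∈ Eq w1 w2) (hxy : x ++ y ∈ Eq w1 w2) :
    x ∈ Eq w1 w2 := by
  unfold Eq at *
  simp only [Set.mem_ofPred_eq] at *
  rw [List.flatMap_append, List.flatMap_append, hy] at hxy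
  exact List.append_cancel_right hxy

theorem Eq_bal {w1 w2 : A → List B} {x : List A} (hx : x ∈ Eq w1 w2) : ds (wt w1 w2) x = 0 := by
  rw [ds_wt, sub_eq_zero]
  exact congrArg (fun l => (List.length l : ℤ)) hx

theorem Eq_pre {w1 w2 : A → List B} {x y : List A} (hxy : x ++ y ∈ Eq w1 w2)
    (h : ds (wt w1 w2) x = 0) : x ∈ Eq w1 w2 := by
  rw [ds_wt] at h
  have h1 : (x.flatMap w1).length = (x.flatMap w2).length := by omega
  unfold Eq at *
  simp only [Set.mem_ofPred_eq] at *
  rw [List.flatMap_append, List.flatMap_append] at hxy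
  exact (List.append_inj hxy h1).1

theorem Eq_pow {w1 w2 : A → List B} {x : List A} (hx : x ∈ Eq w1 w2) (m : ℕ) :
    (List.replicate m x).flatten ∈ Eq w1 w2 := by
  induction m with
  | zero => simp [Eq]
  | succ m ih =>
    rw [List.replicate_succ, List.flatten_cons]
    exact Eq_app hx ih

/-- uniqueness of the branching position -/
theorem branch_pos {P P' u v u' v' : List B} {b c b' c' : B} (hbc : b ≠ c) (hbc' : b' ≠ c')
    (h1 : P ++ b :: u = P' ++ b' :: u') (h2 : P ++ c :: v = P' ++ c' :: v') :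
    P.length = P'.length := by
  rcases lt_trichotomy P.length P'.length with h | h | h
  · exfalso
    apply hbc
    have e1 : (P ++ b :: u)[P.length]? = some b := by simp
    have e2 : (P ++ c :: v)[P.length]? = some c := by simp
    rw [h1, List.getElem?_append_left h] at e1
    rw [h2, List.getElem?_append_left h] at e2
    rw [e1] at e2
    exact Option.some.inj e2
  · exact h
  · exfalso
    apply hbc'
    have e1 : (P' ++ b' :: u')[P'.length]? = some b' := by simp
    have e2 : (P' ++ c' :: v')[P'.length]? = some c' := by simp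
    rw [← h1, List.getElem?_append_left h] at e1
    rw [← h2, List.getElem?_append_left h] at e2
    rw [e1] at e2
    exact Option.some.inj e2

theorem ofFn_app_ne {s : ℕ} (α : Fin (s + 1) → A) (q x : List A) :
    q ++ (List.ofFn α ++ x) ≠ [] := by
  rw [List.ofFn_succ]
  simp

/-- extending the words of an equality set -/
theorem Eq_long {w1 w2 : A → List B} {s : ℕ} (α : Fin (s + 1) → A) {q x : List A}
    (h : q ++ (List.ofFn α ++ x) ∈ Eq w1 w2) (N : ℕ) :
    ∃ x1 U : List A, x1 = x ++ U ∧ U ∈ Eq w1 w2 ∧ N ≤ x1.length ∧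
      q ++ (List.ofFn α ++ x1) ∈ Eq w1 w2 := by
  refine ⟨x ++ (List.replicate N (q ++ (List.ofFn α ++ x))).flatten,
    (List.replicate N (q ++ (List.ofFn α ++ x))).flatten, rfl, Eq_pow h N, ?_, ?_⟩
  · rw [List.length_append]
    have := length_pow (q ++ (List.ofFn α ++ x)) (ofFn_app_ne α q x) N
    omega
  · have := Eq_app h (Eq_pow h N)
    simpa using this

/-- the position of a branching -/
theorem branch_len {w1 w2 : A → List B} {s : ℕ} {α β : Fin (s + 1) → A}
    {l1 N1 l2 N2 : ℕ}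
    (hl1 : ∀ x y : List A, N1 ≤ x.length → N1 ≤ y.length →
      ∃ (z : List B) (b c : B) (u v : List B), z.length = l1 ∧ b ≠ c ∧
      (List.ofFn α ++ x).flatMap w1 = z ++ b :: u ∧ (List.ofFn β ++ y).flatMap w1 = z ++ c :: v)
    (hl2 : ∀ x y : List A, N2 ≤ x.length → N2 ≤ y.length →
      ∃ (z : List B) (b c : B) (u v : List B), z.length = l2 ∧ b ≠ c ∧
      (List.ofFn α ++ x).flatMap w2 = z ++ b :: u ∧ (List.ofFn β ++ y).flatMap w2 = z ++ c :: v)
    {q x y : List A} (hx : q ++ (List.ofFn α ++ x) ∈ Eq w1 w2)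
    (hy : q ++ (List.ofFn β ++ y) ∈ Eq w1 w2) :
    (q.flatMap w1).length + l1 = (q.flatMap w2).length + l2 := by
  obtain ⟨x1, U, -, -, hx1, hx2⟩ := Eq_long α hx (max N1 N2)
  obtain ⟨y1, V, -, -, hy1, hy2⟩ := Eq_long β hy (max N1 N2)
  obtain ⟨z, b, c, u, v, hz, hbc, h1, h2⟩ := hl1 x1 y1 (le_trans (le_max_left _ _) hx1)
    (le_trans (le_max_left _ _) hy1)
  obtain ⟨z', b', c', u', v', hz', hbc', h1', h2'⟩ := hl2 x1 y1 (le_trans (le_max_right _ _) hx1)
    (le_trans (le_max_right _ _) hy1)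
  unfold Eq at hx2 hy2
  simp only [Set.mem_ofPred_eq] at hx2 hy2
  rw [fm w1 q, fm w2 q, h1, h1', ← List.append_assoc,
    ← List.append_assoc] at hx2
  rw [fm w1 q, fm w2 q, h2, h2', ← List.append_assoc,
    ← List.append_assoc] at hy2
  have := branch_pos hbc hbc' hx2 hy2
  rw [List.length_append, List.length_append, hz, hz'] at this
  exact this

theorem sys_of_sep {s : ℕ} {w1 w2 : A → List B} (h1 : Sep s w1) (h2 : Sep s w2) :
    ∃ S : Sys A s, S.E = Eq w1 w2 := by
  refine ⟨⟨Eq w1 w2, wt w1 w2, by simp [Eq], fun x hx y hy => Eq_app hx hy,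
    fun x y hx hxy => Eq_lc hx hxy, fun x hx => Eq_bal hx, fun x y hxy h => Eq_pre hxy h,
    ?_, ?_⟩, rfl⟩
  · intro α β hαβ q x y q0 X Y hx hy hX hY
    obtain ⟨l1, N1, hl1⟩ := h1 α β hαβ
    obtain ⟨l2, N2, hl2⟩ := h2 α β hαβ
    have e1 := branch_len hl1 hl2 hx hy
    have e2 := branch_len hl1 hl2 hX hY
    rw [ds_wt, ds_wt]
    omega
  · intro α β hαβ q y q0 X Y hX hY hy hd
    obtain ⟨l1, N1, hl1⟩ := h1 α β hαβ
    obtain ⟨l2, N2, hl2⟩ := h2 α β hαβ
    have e2 := branch_len hl1 hl2 hX hY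
    have e1 : (q.flatMap w1).length + l1 = (q.flatMap w2).length + l2 := by
      rw [ds_wt, ds_wt] at hd
      omega
    obtain ⟨X1, U, hXU, hU, hX1, hX2⟩ := Eq_long α hX (max N1 N2)
    obtain ⟨y1, V, -, -, hy1, hy2⟩ := Eq_long β hy (max N1 N2)
    obtain ⟨z, b, c, u, v, hz, hbc, g1, g2⟩ := hl1 X1 y1 (le_trans (le_max_left _ _) hX1)
      (le_trans (le_max_left _ _) hy1)
    obtain ⟨z', b', c', u', v', hz', hbc', g1', g2'⟩ := hl2 X1 y1
      (le_trans (le_max_right _ _) hX1) (le_trans (le_max_right _ _) hy1)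
    unfold Eq at hX2 hy2
    simp only [Set.mem_ofPred_eq] at hX2 hy2
    rw [fm w1 q0, fm w2 q0, g1, g1', ← List.append_assoc,
      ← List.append_assoc] at hX2
    rw [fm w1 q, fm w2 q, g2, g2', ← List.append_assoc,
      ← List.append_assoc] at hy2
    have k1 := List.append_inj hX2 (by rw [List.length_append, List.length_append]; omega)
    have k2 := List.append_inj hy2 (by rw [List.length_append, List.length_append]; omega)
    have k3 : q ++ (List.ofFn α ++ X1) ∈ Eq w1 w2 := by
      unfold Eq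
      simp only [Set.mem_ofPred_eq]
      rw [fm w1 q, fm w2 q, g1, g1', ← List.append_assoc,
        ← List.append_assoc, k2.1, k1.2]
    rw [hXU] at k3
    refine Eq_rc hU ?_
    simpa using k3

/-- periodic homomorphisms -/
def Per (w : A → List B) : Prop := ∃ ρ : List B, ∀ a, ∃ k : ℕ, w a = (List.replicate k ρ).flatten

/-- injective homomorphisms -/
def Inj (w : A → List B) : Prop := ∀ x y : List A, x.flatMap w = y.flatMap w → x = y

theorem per_pow {w : A → List B} {ρ : List B} (h : ∀ a, ∃ k : ℕ, w a = (List.replicate k ρ).flatten)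
    (x : List A) : ∃ k : ℕ, x.flatMap w = (List.replicate k ρ).flatten := by
  induction x with
  | nil => exact ⟨0, by simp⟩
  | cons a x ih =>
    obtain ⟨k, hk⟩ := h a
    obtain ⟨m, hm⟩ := ih
    exact ⟨k + m, by rw [List.flatMap_cons, hk, hm, List.replicate_add, List.flatten_append]⟩

theorem per_comm {w : A → List B} (h : Per w) (x y : List A) :
    (x ++ y).flatMap w = (y ++ x).flatMap w := by
  obtain ⟨ρ, hρ⟩ := h
  obtain ⟨k, hk⟩ := per_pow hρ x
  obtain ⟨m, hm⟩ := per_pow hρ y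
  rw [List.flatMap_append, List.flatMap_append, hk, hm, ← List.flatten_append,
    ← List.flatten_append, ← List.replicate_add, ← List.replicate_add, Nat.add_comm]

theorem no_branch {w1 w2 : A → List B} (h1 : Inj w1) (h2 : Per w2) {s : ℕ}
    {α β : Fin (s + 1) → A} (hαβ : α 0 ≠ β 0) {q x y : List A}
    (hx : q ++ (List.ofFn α ++ x) ∈ Eq w1 w2) (hy : q ++ (List.ofFn β ++ y) ∈ Eq w1 w2) : False := by
  have e1 : (q ++ (List.ofFn α ++ x)) ++ (q ++ (List.ofFn β ++ y)) =
      (q ++ (List.ofFn β ++ y)) ++ (q ++ (List.ofFn α ++ x)) := by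
    apply h1
    have a1 : (q ++ (List.ofFn α ++ x) ++ (q ++ (List.ofFn β ++ y))).flatMap w1 = _ :=
      Eq_app hx hy
    have a2 : (q ++ (List.ofFn β ++ y) ++ (q ++ (List.ofFn α ++ x))).flatMap w1 = _ :=
      Eq_app hy hx
    rw [a1, a2]
    exact per_comm h2 _ _
  rw [List.append_assoc q, List.append_assoc q] at e1
  have e2 := List.append_cancel_left e1
  rw [List.ofFn_succ, List.ofFn_succ (f := β)] at e2
  simp only [List.cons_append, List.cons.injEq] at e2
  exact hαβ e2.1

theorem sys_of_inj_per {s : ℕ} {w1 w2 : A → List B} (h1 : Inj w1) (h2 : Per w2) :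
    ∃ S : Sys A s, S.E = Eq w1 w2 := by
  refine ⟨⟨Eq w1 w2, wt w1 w2, by simp [Eq], fun x hx y hy => Eq_app hx hy,
    fun x y hx hxy => Eq_lc hx hxy, fun x hx => Eq_bal hx, fun x y hxy h => Eq_pre hxy h,
    ?_, ?_⟩, rfl⟩
  · intro α β hαβ q x y q0 X Y hx hy hX hY
    exact (no_branch h1 h2 hαβ hx hy).elim
  · intro α β hαβ q y q0 X Y hX hY hy hd
    exact (no_branch h1 h2 hαβ hX hY).elim

theorem Eq_symm (w1 w2 : A → List B) : Eq w1 w2 = Eq w2 w1 := by
  ext x
  exact ⟨fun h => h.symm, fun h => h.symm⟩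

end Pool.Agent.H17.BD
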