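import Pool.Agent.H17.BD.Pairs

/-!
Linear systems (both homomorphisms periodic), mirror images, homomorphisms of bounded delay.
-/

set_option autoImplicit false
set_option linter.unusedSectionVars false

namespace Pool.Agent.H17.BD

variable {A B : Type}

/-- a set of words determined by linear conditions on the Parikh vectors -/
def Lin [DecidableEq A] (E : Set (List A)) : Prop :=
  ∀ x : List A, pk x ∈ Submodule.span ℚ (pk '' E) → x ∈ E

theorem lin_ladder [Fintype A] [DecidableEq A] (J : Finset ℕ) (x : ℕ → List A)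
    (E : ℕ → Set (List A)) (hE : ∀ j ∈ J, Lin (E j))
    (hlad : ∀ i ∈ J, ∀ j ∈ J, i < j → x i ∈ E j) (hnot : ∀ j ∈ J, x j ∉ E j) :
    J.card ≤ Fintype.card A := by
  classical
  have hmono : ∀ i k : ℕ, i ≤ k →
      Submodule.span ℚ {v | ∃ j ∈ J, j < i ∧ v = pk (x j)} ≤
      Submodule.span ℚ {v | ∃ j ∈ J, j < k ∧ v = pk (x j)} := by
    intro i k hik
    apply Submodule.span_mono
    rintro v ⟨j, hj, hji, rfl⟩
    exact ⟨j, hj, by omega, rfl⟩
  refine card_le_of_measure J
    (fun i => Module.finrank ℚ (Submodule.span ℚ {v | ∃ j ∈ J, j < i ∧ v = pk (x j)}))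
    _ ?_ ?_ ?_
  · intro i k hik
    exact Submodule.finrank_mono (hmono i k hik)
  · intro i
    have := Submodule.finrank_le (Submodule.span ℚ {v : A → ℚ | ∃ j ∈ J, j < i ∧ v = pk (x j)})
    rwa [Module.finrank_fintype_fun_eq_card] at this
  · intro i hi
    apply Submodule.finrank_lt_finrank_of_lt
    refine lt_of_le_of_ne (hmono i (i + 1) (Nat.le_succ i)) ?_
    intro heq
    apply hnot i hi
    apply hE i hi
    have h1 : pk (x i) ∈ Submodule.span ℚ {v | ∃ j ∈ J, j < i + 1 ∧ v = pk (x j)} :=
      Submodule.subset_span ⟨i, hi, Nat.lt_succ_self i, rfl⟩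
    rw [← heq] at h1
    refine Submodule.span_mono ?_ h1
    rintro v ⟨j, hj, hji, rfl⟩
    exact ⟨x j, hlad j hj i hi hji, rfl⟩

/-- a linear functional vanishing on the Parikh vectors of `E` vanishes on their span -/
theorem fl_span [Fintype A] [DecidableEq A] {E : Set (List A)} {d : A → ℤ}
    (h : ∀ x ∈ E, ds d x = 0) {x : List A} (hx : pk x ∈ Submodule.span ℚ (pk '' E)) :
    ds d x = 0 := by
  have h1 : Submodule.span ℚ (pk '' E) ≤ LinearMap.ker (fl d) := by
    rw [Submodule.span_le]
    rintro v ⟨y, hy, rfl⟩
    simp only [SetLike.mem_coe, LinearMap.mem_ker]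
    rw [fl_pk, h y hy]
    simp
  have h2 := h1 hx
  rw [LinearMap.mem_ker, fl_pk] at h2
  exact_mod_cast h2

theorem ds_len (w : A → List B) (x : List A) :
    ds (fun a => ((w a).length : ℤ)) x = ((x.flatMap w).length : ℤ) := by
  induction x with
  | nil => simp [ds]
  | cons a x ih =>
    have h : ds (fun a => ((w a).length : ℤ)) (a :: x) = ((w a).length : ℤ) +
      ds (fun a => ((w a).length : ℤ)) x := by simp [ds]
    rw [h, ih, List.flatMap_cons, List.length_append]
    push_cast
    ring

theorem len_pow (ρ : List B) (k : ℕ) : ((List.replicate k ρ).flatten).length = k * ρ.length := by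
  rw [List.length_flatten, List.map_replicate, List.sum_replicate, smul_eq_mul]

theorem pow_mul' (ρ : List B) (k m : ℕ) :
    (List.replicate m (List.replicate k ρ).flatten).flatten =
      (List.replicate (m * k) ρ).flatten := by
  induction m with
  | zero => simp
  | succ m ih =>
    rw [List.replicate_succ, List.flatten_cons, ih, ← List.flatten_append, ← List.replicate_add]
    congr 2
    ring

theorem lin_of_per [Fintype A] [DecidableEq A] {w1 w2 : A → List B} (h1 : Per w1)
    (h2 : Per w2) : Lin (Eq w1 w2) := by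
  intro x hx
  obtain ⟨ρ, hρ⟩ := h1
  obtain ⟨σ, hσ⟩ := h2
  by_cases hc : ∀ y ∈ Eq w1 w2, y.flatMap w1 = []
  · have e1 : ds (fun a => ((w1 a).length : ℤ)) x = 0 := by
      refine fl_span (fun y hy => ?_) hx
      rw [ds_len, hc y hy]
      simp
    have e2 : ds (fun a => ((w2 a).length : ℤ)) x = 0 := by
      refine fl_span (fun y hy => ?_) hx
      have : y.flatMap w2 = [] := by rw [← hc y hy]; exact hy.symm
      rw [ds_len, this]
      simp
    rw [ds_len] at e1 e2
    have f1 : x.flatMap w1 = [] := List.length_eq_zero_iff.mp (by exact_mod_cast e1)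
    have f2 : x.flatMap w2 = [] := List.length_eq_zero_iff.mp (by exact_mod_cast e2)
    show x.flatMap w1 = x.flatMap w2
    rw [f1, f2]
  · push Not at hc
    obtain ⟨y, hy, hyn⟩ := hc
    obtain ⟨m, hm⟩ := per_pow hρ y
    obtain ⟨k, hk⟩ := per_pow hσ y
    obtain ⟨a, ha⟩ := per_pow hρ x
    obtain ⟨b, hb⟩ := per_pow hσ x
    have e0 : ds (wt w1 w2) x = 0 := fl_span (fun z hz => Eq_bal hz) hx
    rw [ds_wt, sub_eq_zero] at e0
    have e1 : (x.flatMap w1).length = (x.flatMap w2).length := by exact_mod_cast e0
    have hyy : y.flatMap w1 = y.flatMap w2 := hy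
    have hmk : (List.replicate m ρ).flatten = (List.replicate k σ).flatten := by
      rw [← hm, ← hk]; exact hy
    have l1 : a * ρ.length = b * σ.length := by
      rw [ha, hb, len_pow, len_pow] at e1
      exact e1
    have l2 : m * ρ.length = k * σ.length := by
      have := congrArg List.length hmk
      rwa [len_pow, len_pow] at this
    have hpos : 0 < m * ρ.length := by
      have h3 : 0 < (y.flatMap w1).length := List.length_pos_iff.mpr hyn
      rwa [hm, len_pow] at h3
    have hm0 : 0 < m := Nat.pos_of_mul_pos_right hpos |> fun h => by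
      rcases Nat.eq_zero_or_pos m with h0 | h0
      · rw [h0] at hpos; simp at hpos
      · exact h0
    have hρ0 : 0 < ρ.length := by
      rcases Nat.eq_zero_or_pos ρ.length with h0 | h0
      · rw [h0] at hpos; simp at hpos
      · exact h0
    have hσ0 : 0 < σ.length := by
      rcases Nat.eq_zero_or_pos σ.length with h0 | h0
      · rw [l2, h0] at hpos; simp at hpos
      · exact h0
    have hab : a * k = b * m := by
      have h3 : (a * k) * (ρ.length * σ.length) = (b * m) * (ρ.length * σ.length) := by
        calc (a * k) * (ρ.length * σ.length) = (a * ρ.length) * (k * σ.length) := by ring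
          _ = (b * σ.length) * (m * ρ.length) := by rw [l1, l2]
          _ = (b * m) * (ρ.length * σ.length) := by ring
      exact Nat.eq_of_mul_eq_mul_right (Nat.mul_pos hρ0 hσ0) h3
    have h4 : (List.replicate m (x.flatMap w1)).flatten =
        (List.replicate m (x.flatMap w2)).flatten := by
      rw [ha, hb, pow_mul', pow_mul', Nat.mul_comm m a, ← pow_mul', hmk, pow_mul', hab,
        Nat.mul_comm b m]
    obtain ⟨m', rfl⟩ : ∃ m', m = m' + 1 := ⟨m - 1, by omega⟩
    rw [List.replicate_succ, List.replicate_succ, List.flatten_cons, List.flatten_cons] at h4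
    exact (List.append_inj h4 e1).1

/-- mirror image of a homomorphism -/
def mir (w : A → List B) (a : A) : List B := (w a).reverse

theorem mir_flatMap (w : A → List B) (x : List A) :
    x.reverse.flatMap (mir w) = (x.flatMap w).reverse := by
  induction x with
  | nil => simp
  | cons a x ih =>
    rw [List.reverse_cons, fm, ih]
    simp [mir]

theorem mem_Eq_mir (w1 w2 : A → List B) (x : List A) :
    x.reverse ∈ Eq (mir w1) (mir w2) ↔ x ∈ Eq w1 w2 := by
  unfold Eq
  simp only [Set.mem_ofPred_eq]
  rw [mir_flatMap, mir_flatMap, List.reverse_inj]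

/-- deciphering delay at most `s` -/
def Del (s : ℕ) (w : A → List B) : Prop :=
  ∀ α β : Fin (s + 1) → A, α 0 ≠ β 0 → ¬ (List.ofFn α).flatMap w <+: (List.ofFn β).flatMap w

/-- two incomparable words branch -/
theorem branch_of_incomparable : ∀ (x y : List B), ¬ x <+: y → ¬ y <+: x →
    ∃ (z : List B) (b c : B) (u v : List B), b ≠ c ∧ x = z ++ b :: u ∧ y = z ++ c :: v := by
  intro x
  induction x with
  | nil => intro y h _; exact absurd (List.nil_prefix) h
  | cons b x ih =>
    intro y h1 h2
    cases y with
    | nil => exact absurd (List.nil_prefix) h2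
    | cons c y =>
      by_cases hbc : b = c
      · subst hbc
        obtain ⟨z, b', c', u, v, h, e1, e2⟩ := ih y
          (fun h => h1 ((List.prefix_cons_inj b).mpr h)) (fun h => h2 ((List.prefix_cons_inj b).mpr h))
        exact ⟨b :: z, b', c', u, v, h, by rw [e1]; rfl, by rw [e2]; rfl⟩
      · exact ⟨[], b, c, x, y, hbc, rfl, rfl⟩

theorem del_nonerasing {s : ℕ} {w : A → List B} (h : Del s w) {c d : A} (hcd : c ≠ d) :
    w c ≠ [] := by
  intro hc
  cases s with
  | zero =>
    refine h (fun _ => c) (fun _ => d) hcd ?_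
    simp [hc]
  | succ s =>
    refine h (Fin.cons c (fun _ => d)) (fun _ => d) (by simpa using hcd) ?_
    refine ⟨w d, ?_⟩
    have e1 : (List.ofFn (fun _ : Fin (s + 1 + 1) => d)).flatMap w =
        (List.ofFn (fun _ : Fin (s + 1) => d)).flatMap w ++ w d := by
      rw [List.ofFn_const, List.ofFn_const, List.replicate_succ', List.flatMap_append]
      simp
    rw [List.ofFn_succ]
    simp only [Fin.cons_zero, Fin.cons_succ, List.flatMap_cons, hc, List.nil_append]
    exact e1.symm

theorem length_le_flatMap {w : A → List B} (h : ∀ c, w c ≠ []) (x : List A) :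
    x.length ≤ (x.flatMap w).length := by
  induction x with
  | nil => simp
  | cons a x ih =>
    rw [List.flatMap_cons, List.length_append, List.length_cons]
    have := List.length_pos_iff.mpr (h a)
    omega

theorem conj_flatMap {w w' : A → List B} {z : List B} (h : ∀ a, w a ++ z = z ++ w' a)
    (x : List A) : x.flatMap w ++ z = z ++ x.flatMap w' := by
  induction x with
  | nil => simp
  | cons a x ih =>
    rw [List.flatMap_cons, List.flatMap_cons, List.append_assoc, ih, ← List.append_assoc, h a,
      List.append_assoc]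

/-- conjugates of homomorphisms of delay `≤ s` separate -/
theorem sep_of_del {s : ℕ} {w w' : A → List B} {z : List B} (h : ∀ a, w a ++ z = z ++ w' a)
    (hd : Del s w') : Sep s w := by
  intro α β hαβ
  have hne : ∀ c, w' c ≠ [] := by
    intro c
    by_cases hc : c = α 0
    · exact del_nonerasing hd (d := β 0) (by rw [hc]; exact hαβ)
    · exact del_nonerasing hd (d := α 0) hc
  obtain ⟨t, b, c, u, v, hbc, e1, e2⟩ := branch_of_incomparable _ _ (hd α β hαβ)
    (hd β α (Ne.symm hαβ))
  have key : ∀ (γ : Fin (s + 1) → A) (e : B) (r : List B),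
      (List.ofFn γ).flatMap w' = t ++ e :: r → ∀ x : List A, z.length ≤ x.length →
      ∃ r', (List.ofFn γ ++ x).flatMap w = (z ++ t) ++ e :: r' := by
    intro γ e r hγ x hx
    have f1 := conj_flatMap h (List.ofFn γ ++ x)
    rw [fm w' (List.ofFn γ) x, hγ] at f1
    have f2 : (List.ofFn γ ++ x).flatMap w ++ z = ((z ++ t) ++ [e]) ++ (r ++ x.flatMap w') := by
      rw [f1]
      simp
    have f3 : ((z ++ t) ++ [e]).length ≤ ((List.ofFn γ ++ x).flatMap w).length := by
      have g1 := congrArg List.length f2
      have g2 := length_le_flatMap hne x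
      simp only [List.length_append, List.length_cons, List.length_nil] at g1 ⊢
      omega
    have f4 : ((z ++ t) ++ [e]) <+: (List.ofFn γ ++ x).flatMap w :=
      List.prefix_of_prefix_length_le ⟨_, f2.symm⟩ (List.prefix_append _ z) f3
    obtain ⟨r', hr'⟩ := f4
    exact ⟨r', by rw [← hr']; simp⟩
  refine ⟨(z ++ t).length, z.length, fun x y hx hy => ?_⟩
  obtain ⟨u', hu'⟩ := key α b u e1 x hx
  obtain ⟨v', hv'⟩ := key β c v e2 y hy
  exact ⟨z ++ t, b, c, u', v', rfl, hbc, hu', hv'⟩

end Pool.Agent.H17.BD
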